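import Pool.Agent.NPC.Defs

/-!
# Propositional proof systems, and proof systems relative to an oracle

Formulas are built from atoms with `¬`, `∧`, `∨` and written as bit strings through their reverse
Polish notation.  The atoms of the ordinary language are the variables `p_s`, named by bit strings
`s`; the language relative to an oracle `X : List Bool → Bool` has in addition the atoms
`X(p_{s₁}, …, p_{s_k})`.
-/

namespace Pool.Agent.H681R2.GA

open Pool.Agent.NPC

/-- Propositional formulas with atoms from `A`. -/
inductive Fm (A : Type) : Type
  | atom (a : A) : Fm A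
  | neg (φ : Fm A) : Fm A
  | and (φ ψ : Fm A) : Fm A
  | or (φ ψ : Fm A) : Fm A

/-- The truth value of a formula. -/
def Fm.eval {A : Type} (v : A → Bool) : Fm A → Bool
  | atom a => v a
  | neg φ => !φ.eval v
  | and φ ψ => φ.eval v && ψ.eval v
  | or φ ψ => φ.eval v || ψ.eval v

/-- The symbols: atoms, `none` for `¬`, `some false` for `∧`, `some true` for `∨`. -/
abbrev Tok (A : Type) : Type := A ⊕ Option Bool

/-- Reverse Polish notation. -/
def Fm.rpn {A : Type} : Fm A → List (Tok A)
  | atom a => [Sum.inl a]
  | neg φ => φ.rpn ++ [Sum.inr none]
  | and φ ψ => φ.rpn ++ ψ.rpn ++ [Sum.inr (some false)]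
  | or φ ψ => φ.rpn ++ ψ.rpn ++ [Sum.inr (some true)]

/-- The bit string coding a formula. -/
def Fm.code {A : Type} [TEnc A] (φ : Fm A) : List Bool := bits φ.rpn

/-- Names of propositional variables. -/
abbrev Var : Type := List Bool

/-- The set of (codes of) tautologies. -/
def TAUT : Set (List Bool) := {x | ∃ φ : Fm Var, φ.code = x ∧ ∀ v : Var → Bool, φ.eval v = true}

/-- Cook–Reckhow propositional proof systems. -/
def IsPS (f : List Bool → List Bool) : Prop := PolyTime f ∧ Set.range f = TAUT

/-- `f` p-simulates `g`. -/
def PSim (f g : List Bool → List Bool) : Prop :=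
  ∃ h : List Bool → List Bool, PolyTime h ∧ ∀ w, f (h w) = g w

/-- `f` simulates `g`. -/
def Sim (f g : List Bool → List Bool) : Prop :=
  ∃ p : Polynomial ℕ, ∀ w : List Bool, ∃ v : List Bool, v.length ≤ p.eval w.length ∧ f v = g w

/-- `f` is a p-optimal proof system. -/
def POptimal (f : List Bool → List Bool) : Prop := IsPS f ∧ ∀ g, IsPS g → PSim f g

/-- `f` is an optimal proof system. -/
def Optimal (f : List Bool → List Bool) : Prop := IsPS f ∧ ∀ g, IsPS g → Sim f g

/-! ### Relative to an oracle -/

/-- Oracles. -/
abbrev Orc : Type := List Bool → Bool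

/-- Atoms of the language relative to an oracle: variables, and oracle atoms
`X(p_{s₁}, …, p_{s_k})`. -/
abbrev RAtom : Type := Var ⊕ List Var

/-- The truth value of an atom, for an oracle and an assignment. -/
def rval (X : Orc) (v : Var → Bool) : RAtom → Bool
  | Sum.inl s => v s
  | Sum.inr l => X (l.map v)

/-- The set of (codes of) tautologies relative to the oracle `X`. -/
def TAUTrel (X : Orc) : Set (List Bool) :=
  {x | ∃ φ : Fm RAtom, φ.code = x ∧ ∀ v : Var → Bool, φ.eval (rval X v) = true}

/-- One round of an oracle computation on input `w`, in which the answers received so far form the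
string `a`: if `next` computes `false :: q`, then the string `q` is put to the oracle and the answer
is appended to `a`; in all other cases nothing happens any more. -/
def oStep (next : List Bool → List Bool) (X : Orc) (w a : List Bool) : List Bool :=
  match next (pairBits w a) with
  | false :: q => a ++ [X q]
  | _ => a

/-- The result of the oracle computation on input `w` with `p (|w|)` rounds: after these rounds
`next` must have computed `true :: y`, and the result is `y` (it is `[]` otherwise). -/
def oRun (next : List Bool → List Bool) (p : Polynomial ℕ) (X : Orc) (w : List Bool) :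
    List Bool :=
  match next (pairBits w ((oStep next X w)^[p.eval w.length] [])) with
  | true :: y => y
  | _ => []

/-- `f` is computable in polynomial time relative to the oracle `X`. -/
def PolyTimeRel (X : Orc) (f : List Bool → List Bool) : Prop :=
  ∃ (next : List Bool → List Bool) (p : Polynomial ℕ), PolyTime next ∧ ∀ w, f w = oRun next p X w

/-- Proof systems relative to the oracle `X`. -/
def IsPSRel (X : Orc) (f : List Bool → List Bool) : Prop :=
  PolyTimeRel X f ∧ Set.range f = TAUTrel X

/-- `f` p-simulates `g`, relative to `X`. -/
def PSimRel (X : Orc) (f g : List Bool → List Bool) : Prop :=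
  ∃ h : List Bool → List Bool, PolyTimeRel X h ∧ ∀ w, f (h w) = g w

/-- `f` is a p-optimal proof system relative to `X`. -/
def POptimalRel (X : Orc) (f : List Bool → List Bool) : Prop :=
  IsPSRel X f ∧ ∀ g, IsPSRel X g → PSimRel X f g

/-- `f` is an optimal proof system relative to `X`. -/
def OptimalRel (X : Orc) (f : List Bool → List Bool) : Prop :=
  IsPSRel X f ∧ ∀ g, IsPSRel X g → Sim f g

/-- All tautologies relative to `X` have `f`-proofs of polynomial length. -/
def PolyBounded (X : Orc) (f : List Bool → List Bool) : Prop :=
  ∃ p : Polynomial ℕ, ∀ x ∈ TAUTrel X, ∃ w : List Bool, w.length ≤ p.eval x.length ∧ f w = x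

end Pool.Agent.H681R2.GA
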