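import Pool.Agent.H681R2.GA.Syntax
import Pool.Agent.NPC.Dec

/-!
# Oracle computations: finite use, transcripts, tables
-/

namespace Pool.Agent.H681R2.GA

open Pool.Agent.NPC

/-- The answers after `k` rounds. -/
def ans (next : List Bool → List Bool) (X : Orc) (w : List Bool) (k : ℕ) : List Bool :=
  (oStep next X w)^[k] []

variable {next : List Bool → List Bool} {X Y : Orc} {w a : List Bool} {k : ℕ}

@[simp] theorem ans_zero : ans next X w 0 = [] := rfl

theorem ans_succ : ans next X w (k + 1) = oStep next X w (ans next X w k) := by
  rw [ans, Function.iterate_succ_apply', ans]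

theorem oStep_query {q : List Bool} (h : next (pairBits w a) = false :: q) :
    oStep next X w a = a ++ [X q] := by
  rw [oStep, h]

theorem oStep_stop (h : ∀ q, next (pairBits w a) ≠ false :: q) : oStep next X w a = a := by
  rw [oStep]
  split
  · rename_i q hq
    exact absurd hq (h q)
  · rfl

theorem length_ans_le : (ans next X w k).length ≤ k := by
  induction k with
  | zero => simp
  | succ k ih =>
    rw [ans_succ]
    by_cases h : ∃ q, next (pairBits w (ans next X w k)) = false :: q
    · obtain ⟨q, h⟩ := h
      rw [oStep_query h]
      simp only [List.length_append, List.length_cons, List.length_nil]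
      omega
    · push Not at h
      rw [oStep_stop h]
      omega

/-- The output extracted from the last value of `next`. -/
def outp (s : List Bool) : List Bool := if s.head? = some true then s.tail else []

theorem oRun_eq (p : Polynomial ℕ) :
    oRun next p X w = outp (next (pairBits w (ans next X w (p.eval w.length)))) := by
  rw [oRun, ans]
  generalize next (pairBits w ((oStep next X w)^[p.eval w.length] [])) = s
  rcases s with _ | ⟨_ | _, s⟩ <;> rfl

/-- The transcript: the queries with their answers. -/
def tr (next : List Bool → List Bool) (w a : List Bool) : List (List Bool × Bool) :=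
  (List.range a.length).map (fun i => ((next (pairBits w (a.take i))).tail, a.getD i false))

theorem length_tr : (tr next w a).length = a.length := by simp [tr]

theorem tr_concat (b : Bool) :
    tr next w (a ++ [b]) = tr next w a ++ [((next (pairBits w a)).tail, b)] := by
  simp only [tr, List.length_append, List.length_cons, List.length_nil, Nat.zero_add,
    List.range_succ, List.map_append, List.map_cons, List.map_nil]
  congr 1
  · apply List.map_congr_left
    intro i hi
    have hi : i < a.length := List.mem_range.1 hi
    rw [List.take_append_of_le_length hi.le, List.getD_append _ _ _ _ hi]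
  · simp

theorem ext_tr : Ext X (tr next w (ans next X w k)) := by
  induction k with
  | zero => simp [tr, Ext]
  | succ k ih =>
    rw [ans_succ]
    by_cases h : ∃ q, next (pairBits w (ans next X w k)) = false :: q
    · obtain ⟨q, h⟩ := h
      rw [oStep_query h, tr_concat, h]
      intro r hr
      rcases List.mem_append.1 hr with hr | hr
      · exact ih r hr
      · simp only [List.tail_cons, List.mem_singleton] at hr
        subst hr
        rfl
    · push Not at h
      rw [oStep_stop h]
      exact ih

theorem tr_succ_subset : ∀ r ∈ tr next w (ans next X w k),
    r ∈ tr next w (ans next X w (k + 1)) := by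
  intro r hr
  rw [ans_succ]
  by_cases h : ∃ q, next (pairBits w (ans next X w k)) = false :: q
  · obtain ⟨q, h⟩ := h
    rw [oStep_query h, tr_concat]
    exact List.mem_append_left _ hr
  · push Not at h
    rwa [oStep_stop h]

/-- The computation depends only on the transcript. -/
theorem ans_congr (h : Ext Y (tr next w (ans next X w k))) : ans next Y w k = ans next X w k := by
  induction k with
  | zero => rfl
  | succ k ih =>
    have h1 := ih (fun r hr => h r (tr_succ_subset r hr))
    rw [ans_succ, ans_succ, h1]
    by_cases hq : ∃ q, next (pairBits w (ans next X w k)) = false :: q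
    · obtain ⟨q, hq⟩ := hq
      rw [oStep_query hq, oStep_query hq]
      have h2 : ((q, X q) : List Bool × Bool) ∈ tr next w (ans next X w (k + 1)) := by
        rw [ans_succ, oStep_query hq, tr_concat, hq]
        simp
      have h3 := h _ h2
      simp only at h3
      rw [h3]
    · push Not at hq
      rw [oStep_stop hq, oStep_stop hq]

theorem oRun_congr {p : Polynomial ℕ}
    (h : Ext Y (tr next w (ans next X w (p.eval w.length)))) :
    oRun next p Y w = oRun next p X w := by
  rw [oRun_eq, oRun_eq, ans_congr h]

/-! ### Tables -/

/-- The oracle given by a table (`false` outside of the table). -/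
def tab (ρ : List (List Bool × Bool)) : Orc := fun q =>
  ((ρ.filter (fun r => decide (r.1 = q))).head?).elim false (fun r => r.2)

theorem ext_tab {ρ : List (List Bool × Bool)} (h : Ext X ρ) : Ext (tab ρ) ρ := by
  rintro ⟨q, b⟩ hr
  have h1 : (q, b) ∈ ρ.filter (fun r => decide (r.1 = q)) := by simp [hr]
  simp only [tab]
  cases hh : (ρ.filter (fun r => decide (r.1 = q))) with
  | nil => rw [hh] at h1; simp at h1
  | cons r l =>
    simp only [List.head?_cons, Option.elim_some]
    have h2 : r ∈ ρ.filter (fun r => decide (r.1 = q)) := by rw [hh]; simp
    simp only [List.mem_filter, decide_eq_true_eq] at h2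
    have h3 := h r h2.1
    have h4 := h _ hr
    rw [h2.2] at h3
    simp only at h4
    rw [← h3, h4]

theorem ext_append {σ ρ : List (List Bool × Bool)} : Ext X (σ ++ ρ) ↔ Ext X σ ∧ Ext X ρ := by
  simp only [Ext, List.mem_append]
  constructor
  · intro h
    exact ⟨fun r hr => h r (Or.inl hr), fun r hr => h r (Or.inr hr)⟩
  · rintro ⟨h1, h2⟩ r (hr | hr)
    · exact h1 r hr
    · exact h2 r hr

/-! ### The relative proof system attached to a proof system -/

/-- The code of `p ∨ ¬ p`. -/
def c0 : List Bool :=
  (Fm.or (Fm.atom (Sum.inl [])) (Fm.neg (Fm.atom (Sum.inl []))) : Fm RAtom).code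

theorem c0_mem : c0 ∈ TAUTrel X := ⟨_, rfl, fun v => by simp [Fm.eval]⟩

/-- Ordinary formulas as formulas of the relativised language. -/
def iotaT (ts : List (Tok Var)) : List (Tok RAtom) :=
  ts.map (fun t => Sum.elim (fun s => Sum.inl (Sum.inl s)) (fun o => Sum.inr o) t)

/-- The same for codes. -/
def iotaS (x : List Bool) : List Bool :=
  (unbits (List (Tok Var)) x).elim [] (fun ts => bits (iotaT ts))

/-- Data of the second kind of proofs. -/
abbrev Dat : Type := List (List Bool × Bool) × List Bool × List (Tok RAtom)

/-- The proof system relative to `X` attached to `f`.  Proofs `false :: v` prove ordinary formulas;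
proofs `true :: u` consist of a table `ρ`, an `f`-proof and a formula. -/
def EN (f : List Bool → List Bool) (X : Orc) (u : List Bool) : List Bool :=
  if u.head? = some false then iotaS (f u.tail) else
    (unbits Dat u.tail).elim c0 (fun d => if d.1.map (fun r => X r.1) = d.1.map (fun r => r.2) ∧
      f d.2.1 = bits (hatT d.1 d.2.2) ∧ (orcs d.2.2).isEmpty = false then bits d.2.2 else c0)

theorem map_eq_iff {ρ : List (List Bool × Bool)} :
    ρ.map (fun r => X r.1) = ρ.map (fun r => r.2) ↔ Ext X ρ := by
  induction ρ with
  | nil => simp [Ext]
  | cons r ρ ih =>
    simp only [List.map_cons, List.cons.injEq, ih, Ext, List.mem_cons, forall_eq_or_imp]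

/-- The oracle procedure computing `EN f`. -/
def nextE (f : List Bool → List Bool) (y : List Bool) : List Bool :=
  if (unpair y).1.head? = some false then true :: iotaS (f (unpair y).1.tail) else
    (unbits Dat (unpair y).1.tail).elim (true :: c0) (fun d =>
      if (unpair y).2.length < d.1.length then false :: (d.1.getD (unpair y).2.length ([], false)).1
      else true :: (if (unpair y).2 = d.1.map (fun r => r.2) ∧
        f d.2.1 = bits (hatT d.1 d.2.2) ∧ (orcs d.2.2).isEmpty = false then bits d.2.2 else c0))

theorem iotaT_eq (ts : List (Tok Var)) : iotaT ts = ts.map (tmap Sum.inl) := by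
  unfold iotaT
  apply List.map_congr_left
  rintro (s | o) _ <;> rfl

theorem oRun_nextE (f : List Bool → List Bool) (X : Orc) (u : List Bool) :
    oRun (nextE f) Polynomial.X X u = EN f X u := by
  rw [oRun_eq, Polynomial.eval_X]
  by_cases hu : u.head? = some false
  · have h1 : ∀ a, nextE f (pairBits u a) = true :: iotaS (f u.tail) := by
      intro a
      simp only [nextE, unpair_pairBits]
      rw [if_pos hu]
    rw [h1, EN, if_pos hu]
    rfl
  · cases hd : unbits Dat u.tail with
    | none =>
      have h1 : ∀ a, nextE f (pairBits u a) = true :: c0 := by
        intro a
        simp only [nextE, unpair_pairBits]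
        rw [if_neg hu, hd]
        rfl
      rw [h1, EN, if_neg hu, hd]
      rfl
    | some d =>
      have h1 : ∀ a, nextE f (pairBits u a) =
          if a.length < d.1.length then false :: (d.1.getD a.length ([], false)).1
          else true :: (if a = d.1.map (fun r => r.2) ∧
            f d.2.1 = bits (hatT d.1 d.2.2) ∧ (orcs d.2.2).isEmpty = false
              then bits d.2.2 else c0) := by
        intro a
        simp only [nextE, unpair_pairBits]
        rw [if_neg hu, hd]
        rfl
      have hlen : d.1.length ≤ u.length := by
        have h2 := bits_of_unbits hd
        have h3 : sz d = u.tail.length := by rw [← bits_length, h2]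
        have h4 : d.1.length < sz d.1 := length_lt_sz d.1
        have h5 : sz d = sz d.1 + sz d.2 + 1 := by
          obtain ⟨d1, d2⟩ := d
          exact sz_pair _ _
        have h6 : u.tail.length ≤ u.length := by simp
        omega
      have h2 : ∀ k, ans (nextE f) X u k = (d.1.take k).map (fun r => X r.1) := by
        intro k
        induction k with
        | zero => simp
        | succ k ih =>
          rw [ans_succ, ih]
          by_cases hk : k < d.1.length
          · have h3 : nextE f (pairBits u ((d.1.take k).map (fun r => X r.1))) =
                false :: (d.1[k]).1 := by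
              rw [h1]
              simp only [List.length_map, List.length_take, Nat.min_eq_left hk.le]
              rw [if_pos hk]
              simp [hk]
            rw [oStep_query h3, List.take_succ_eq_append_getElem hk, List.map_append]
            rfl
          · have h3 : ∀ q, nextE f (pairBits u ((d.1.take k).map (fun r => X r.1))) ≠
                false :: q := by
              intro q
              rw [h1]
              simp only [List.length_map, List.length_take]
              rw [if_neg (by omega)]
              simp
            rw [oStep_stop h3, List.take_of_length_le (by omega), List.take_of_length_le (by omega)]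
      rw [h2, List.take_of_length_le hlen, h1, if_neg (by simp), EN, if_neg hu, hd]
      rfl

end Pool.Agent.H681R2.GA
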