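import Pool.Agent.H681R2.GA.Orac
import Pool.Agent.H671R2.PolyAuto
import Pool.Agent.H670R2.Best
import Pool.Agent.H622R2.CoNP

/-!
# Polynomial time
-/

namespace Pool.Agent.H681R2.GA

open Pool.Agent.NPC

variable {α β : Type} [TEnc α] [TEnc β]

@[fun_prop]
theorem poly_bits' {g : α → β} (hg : Poly g) : Poly (fun a => bits (g a)) :=
  H670R2.poly_bits.comp hg

@[fun_prop]
theorem poly_unbits' [TDec β] {g : α → List Bool} (hg : Poly g) : Poly (fun a => unbits β (g a)) :=
  poly_unbits.comp hg

@[fun_prop]
theorem poly_unpair' {g : α → List Bool} (hg : Poly g) : Poly (fun a => unpair (g a)) :=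
  poly_unpair.comp hg

@[fun_prop]
theorem poly_name' {g : α → RAtom} (hg : Poly g) : Poly (fun a => name (g a)) :=
  poly_bits' hg

@[fun_prop]
theorem poly_xorT {s t : α → Var} (hs : Poly s) (ht : Poly t) :
    Poly (fun a => xorT (s a) (t a)) := by
  unfold xorT
  fun_prop

@[fun_prop]
theorem poly_litT {s : α → Var} {b : α → Bool} (hs : Poly s) (hb : Poly b) :
    Poly (fun a => litT (s a) (b a)) := by
  unfold litT
  fun_prop

@[fun_prop]
theorem poly_c1T {s t : α → List Var} (hs : Poly s) (ht : Poly t) :
    Poly (fun a => c1T (s a) (t a)) := by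
  unfold c1T
  fun_prop

@[fun_prop]
theorem poly_c2T {s : α → List Var} {t : α → List Bool × Bool} (hs : Poly s) (ht : Poly t) :
    Poly (fun a => c2T (s a) (t a)) := by
  unfold c2T
  fun_prop

@[fun_prop]
theorem poly_constrT {r : α → List (List Bool × Bool)} {l : α → List (List Var)} (hr : Poly r)
    (hl : Poly l) : Poly (fun a => constrT (r a) (l a)) := by
  unfold constrT
  fun_prop

@[fun_prop]
theorem poly_orcs {ts : α → List (Tok RAtom)} (h : Poly ts) : Poly (fun a => orcs (ts a)) := by
  unfold orcs
  fun_prop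

@[fun_prop]
theorem poly_hatT {r : α → List (List Bool × Bool)} {ts : α → List (Tok RAtom)} (hr : Poly r)
    (h : Poly ts) : Poly (fun a => hatT (r a) (ts a)) := by
  unfold hatT
  fun_prop

@[fun_prop]
theorem poly_iotaT {ts : α → List (Tok Var)} (h : Poly ts) : Poly (fun a => iotaT (ts a)) := by
  unfold iotaT
  fun_prop

@[fun_prop]
theorem poly_iotaS {x : α → List Bool} (h : Poly x) : Poly (fun a => iotaS (x a)) := by
  unfold iotaS
  fun_prop

theorem poly_nextE_aux {f : List Bool → List Bool} (hf : Poly f) :
    Poly (fun p : List Bool × Dat =>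
      if p.1 = p.2.1.map (fun r => r.2) ∧
        f p.2.2.1 = bits (hatT p.2.1 p.2.2.2) ∧ (orcs p.2.2.2).isEmpty = false
          then bits p.2.2.2 else c0) := by
  have h0 : Poly (fun p : List Bool × Dat => p.1) := Poly.fst Poly.id
  have h1 : Poly (fun p : List Bool × Dat => p.2.1.map (fun r => r.2)) := by fun_prop
  have h2 : Poly (fun p : List Bool × Dat => f p.2.2.1) := by fun_prop
  have h3 : Poly (fun p : List Bool × Dat => bits (hatT p.2.1 p.2.2.2)) := by fun_prop
  have h4 : Poly (fun p : List Bool × Dat => (orcs p.2.2.2).isEmpty) := by fun_prop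
  have h5 : Poly (fun p : List Bool × Dat => bits p.2.2.2) := by fun_prop
  have h6 : Poly (fun _ : List Bool × Dat => c0) := NPC.Poly.const c0
  have h7 : Poly (fun _ : List Bool × Dat => false) := NPC.Poly.const false
  exact Poly.ite (Poly.decide_and (Poly.dec_eq h0 h1)
    (Poly.decide_and (Poly.dec_eq h2 h3) (Poly.dec_eq h4 h7))) h5 h6

theorem poly_up1 : Poly (fun y : List Bool => (unpair y).1) := Poly.fst poly_unpair

theorem poly_up2 : Poly (fun y : List Bool => (unpair y).2) := Poly.snd poly_unpair

theorem poly_up1t : Poly (fun y : List Bool => (unpair y).1.tail) := Poly.tail poly_up1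

theorem poly_nextE {f : List Bool → List Bool} (hf : Poly f) : Poly (nextE f) := by
  have h2 : Poly (fun y : List Bool => iotaS (f (unpair y).1.tail)) :=
    poly_iotaS (hf.comp poly_up1t)
  have h3 : Poly (fun y : List Bool => decide ((unpair y).1.head? = some false)) :=
    Poly.dec_eq (Poly.head? poly_up1) (NPC.Poly.const _)
  have h4 : Poly (fun y : List Bool => unbits Dat (unpair y).1.tail) :=
    poly_unbits' poly_up1t
  have h5 : Poly (fun _ : List Bool => true :: c0) := NPC.Poly.const _
  have h6 : Poly (fun y : List Bool => true :: iotaS (f (unpair y).1.tail)) :=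
    Poly.cons (NPC.Poly.const true) h2
  have h7 : Poly (fun p : List Bool × Dat => (unpair p.1).2) :=
    poly_up2.comp (Poly.fst Poly.id)
  have h8 : Poly (fun p : List Bool × Dat => (unpair p.1).2.length) := Poly.length h7
  have h9 : Poly (fun p : List Bool × Dat => p.2.1.length) := by fun_prop
  have h10 : Poly (fun p : List Bool × Dat => decide ((unpair p.1).2.length < p.2.1.length)) :=
    Poly.decide_lt h8 h9
  have h11 : Poly (fun p : List Bool × Dat =>
      false :: (p.2.1.getD (unpair p.1).2.length ([], false)).1) :=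
    Poly.cons (NPC.Poly.const _) (Poly.fst (Poly.getD (by fun_prop) h8 (NPC.Poly.const _)))
  have h12 : Poly (fun p : List Bool × Dat => true ::
      (if (unpair p.1).2 = p.2.1.map (fun r => r.2) ∧
        f p.2.2.1 = bits (hatT p.2.1 p.2.2.2) ∧ (orcs p.2.2.2).isEmpty = false
        then bits p.2.2.2 else c0)) :=
    Poly.cons (NPC.Poly.const _) ((poly_nextE_aux hf).comp
      (f := fun p : List Bool × Dat => ((unpair p.1).2, p.2)) (Poly.pair h7 (Poly.snd Poly.id)))
  exact Poly.ite h3 h6 (Poly.optElim (h := fun y d =>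
      if (unpair y).2.length < d.1.length then false :: (d.1.getD (unpair y).2.length ([], false)).1
      else true :: (if (unpair y).2 = d.1.map (fun r => r.2) ∧
        f d.2.1 = bits (hatT d.1 d.2.2) ∧ (orcs d.2.2).isEmpty = false then bits d.2.2 else c0))
      h4 h5 (Poly.ite h10 h11 h12))

end Pool.Agent.H681R2.GA
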