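import Pool.Agent.H681R2.GA.Defs
import Mathlib

/-!
# Unique readability, and the translation of relativised tautologies
-/

namespace Pool.Agent.H681R2.GA

open Pool.Agent.NPC

variable {A B : Type}

/-! ### Parsing -/

/-- One step of the parser. -/
def pstep : Tok A → List (Fm A) → Option (List (Fm A))
  | Sum.inl a, st => some (Fm.atom a :: st)
  | Sum.inr none, φ :: st => some (Fm.neg φ :: st)
  | Sum.inr (some false), ψ :: φ :: st => some (Fm.and φ ψ :: st)
  | Sum.inr (some true), ψ :: φ :: st => some (Fm.or φ ψ :: st)
  | _, _ => none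

/-- The parser. -/
def parse : List (Tok A) → List (Fm A) → Option (List (Fm A))
  | [], st => some st
  | t :: ts, st => (pstep t st).bind (parse ts)

theorem parse_rpn (φ : Fm A) : ∀ (ts : List (Tok A)) (st : List (Fm A)),
    parse (φ.rpn ++ ts) st = parse ts (φ :: st) := by
  induction φ with
  | atom a => intro ts st; rfl
  | neg φ ih =>
    intro ts st
    rw [Fm.rpn, List.append_assoc, ih]
    rfl
  | and φ ψ ih ih' =>
    intro ts st
    rw [Fm.rpn, List.append_assoc, List.append_assoc, ih, ih']
    rfl
  | or φ ψ ih ih' =>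
    intro ts st
    rw [Fm.rpn, List.append_assoc, List.append_assoc, ih, ih']
    rfl

theorem rpn_injective : Function.Injective (Fm.rpn : Fm A → List (Tok A)) := by
  intro φ ψ h
  have h1 := parse_rpn φ [] []
  have h2 := parse_rpn ψ [] []
  rw [h, h2] at h1
  simpa [parse] using h1.symm

/-- The tokens of a stack of formulas. -/
def flat (st : List (Fm A)) : List (Tok A) := st.reverse.flatMap Fm.rpn

theorem flat_cons (φ : Fm A) (st : List (Fm A)) : flat (φ :: st) = flat st ++ φ.rpn := by
  simp [flat]

theorem flat_pstep {t : Tok A} {st st' : List (Fm A)} (h : pstep t st = some st') :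
    flat st ++ [t] = flat st' := by
  rcases t with a | (_ | (_ | _))
  · simp only [pstep, Option.some.injEq] at h
    subst h
    rw [flat_cons]; rfl
  · rcases st with _ | ⟨φ, st⟩
    · simp [pstep] at h
    · simp only [pstep, Option.some.injEq] at h
      subst h
      simp [flat_cons, Fm.rpn]
  · rcases st with _ | ⟨ψ, _ | ⟨φ, st⟩⟩
    · simp [pstep] at h
    · simp [pstep] at h
    · simp only [pstep, Option.some.injEq] at h
      subst h
      simp [flat_cons, Fm.rpn]
  · rcases st with _ | ⟨ψ, _ | ⟨φ, st⟩⟩
    · simp [pstep] at h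
    · simp [pstep] at h
    · simp only [pstep, Option.some.injEq] at h
      subst h
      simp [flat_cons, Fm.rpn]

theorem flat_parse : ∀ (ts : List (Tok A)) (st st' : List (Fm A)), parse ts st = some st' →
    flat st ++ ts = flat st'
  | [], st, st', h => by
    simp only [parse, Option.some.injEq] at h
    subst h
    simp
  | t :: ts, st, st', h => by
    rw [parse] at h
    obtain ⟨s, hs, h⟩ := Option.bind_eq_some_iff.1 h
    have h1 := flat_parse ts s st' h
    have h2 := flat_pstep hs
    rw [← h1, ← h2]
    simp

theorem parse_append : ∀ (ts ts' : List (Tok A)) (st : List (Fm A)),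
    parse (ts ++ ts') st = (parse ts st).bind (parse ts')
  | [], ts', st => by simp [parse]
  | t :: ts, ts', st => by
    simp only [List.cons_append, parse, Option.bind_assoc]
    congr 1
    funext s
    exact parse_append ts ts' s

/-! ### Atoms, renaming -/

/-- Renaming of atoms. -/
def Fm.map (g : A → B) : Fm A → Fm B
  | atom a => atom (g a)
  | neg φ => neg (φ.map g)
  | and φ ψ => and (φ.map g) (ψ.map g)
  | or φ ψ => or (φ.map g) (ψ.map g)

theorem eval_map (g : A → B) (v : B → Bool) (φ : Fm A) :
    (φ.map g).eval v = φ.eval (fun a => v (g a)) := by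
  induction φ <;> simp_all [Fm.map, Fm.eval]

/-- Renaming of atoms in symbols. -/
def tmap (g : A → B) : Tok A → Tok B := Sum.map g id

theorem rpn_map (g : A → B) (φ : Fm A) : (φ.map g).rpn = φ.rpn.map (tmap g) := by
  induction φ <;> simp_all [Fm.map, Fm.rpn, tmap]

theorem eval_congr {v v' : A → Bool} (φ : Fm A)
    (h : ∀ a, (Sum.inl a : Tok A) ∈ φ.rpn → v a = v' a) : φ.eval v = φ.eval v' := by
  induction φ with
  | atom a => exact h a (by simp [Fm.rpn])
  | neg φ ih => 
    have := ih (fun a ha => h a (by simp [Fm.rpn, ha]))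
    simp [Fm.eval, this]
  | and φ ψ ih ih' => 
    have h1 := ih (fun a ha => h a (by simp [Fm.rpn, ha]))
    have h2 := ih' (fun a ha => h a (by simp [Fm.rpn, ha]))
    simp [Fm.eval, h1, h2]
  | or φ ψ ih ih' => 
    have h1 := ih (fun a ha => h a (by simp [Fm.rpn, ha]))
    have h2 := ih' (fun a ha => h a (by simp [Fm.rpn, ha]))
    simp [Fm.eval, h1, h2]

/-- A list of tokens whose image under a renaming is readable is itself readable. -/
theorem pstep_map (g : A → B) (t : Tok A) (st : List (Fm A)) :
    pstep (tmap g t) (st.map (Fm.map g)) = (pstep t st).map (List.map (Fm.map g)) := by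
  rcases t with a | (_ | (_ | _)) <;> rcases st with _ | ⟨ψ, _ | ⟨φ, st⟩⟩ <;> rfl

theorem parse_map (g : A → B) : ∀ (ts : List (Tok A)) (st : List (Fm A)),
    parse (ts.map (tmap g)) (st.map (Fm.map g)) = (parse ts st).map (List.map (Fm.map g))
  | [], st => by simp [parse]
  | t :: ts, st => by
    simp only [List.map_cons, parse, pstep_map]
    cases h : pstep t st with
    | none => simp
    | some s => simpa using parse_map g ts s

/-! ### Disjunctions -/

theorem eval_foldl_or {C : Type} (F : C → Fm A) (v : A → Bool) : ∀ (l : List C) (φ : Fm A),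
    (l.foldl (fun a c => Fm.or a (F c)) φ).eval v = (φ.eval v || l.any (fun c => (F c).eval v))
  | [], φ => by simp
  | c :: l, φ => by
    rw [List.foldl_cons, eval_foldl_or F v l]
    simp [Fm.eval, Bool.or_assoc]

theorem rpn_foldl_or {C : Type} (F : C → Fm A) : ∀ (l : List C) (φ : Fm A),
    (l.foldl (fun a c => Fm.or a (F c)) φ).rpn =
      φ.rpn ++ l.flatMap (fun c => (F c).rpn ++ [Sum.inr (some true)])
  | [], φ => by simp
  | c :: l, φ => by
    rw [List.foldl_cons, rpn_foldl_or F l]
    simp [Fm.rpn]

/-! ### The translation -/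

/-- Names of atoms of the relativised language as variables. -/
def name (r : RAtom) : Var := bits r

theorem name_injective : Function.Injective name := fun _ _ h => by
  exact TEnc.inj (T.enc_injective h)

/-- Exclusive or of two variables. -/
def xorF (s t : Var) : Fm Var :=
  Fm.or (Fm.and (Fm.atom s) (Fm.neg (Fm.atom t))) (Fm.and (Fm.neg (Fm.atom s)) (Fm.atom t))

theorem eval_xorF (v : Var → Bool) (s t : Var) : (xorF s t).eval v = (v s ^^ v t) := by
  simp only [xorF, Fm.eval]
  cases v s <;> cases v t <;> rfl

/-- A literal. -/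
def litF (s : Var) (b : Bool) : Fm Var := bif b then Fm.atom s else Fm.neg (Fm.atom s)

theorem eval_litF (v : Var → Bool) (s : Var) (b : Bool) : (litF s b).eval v = decide (v s = b) := by
  cases b <;> simp [litF, Fm.eval]

/-- If the arguments agree then the oracle answers agree. -/
def c1 (l l' : List Var) : Fm Var :=
  (l.zip l').foldl (fun a p => Fm.or a (xorF (name (Sum.inl p.1)) (name (Sum.inl p.2))))
    (Fm.neg (xorF (name (Sum.inr l)) (name (Sum.inr l'))))

/-- The answer agrees with the table. -/
def c2 (l : List Var) (r : List Bool × Bool) : Fm Var :=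
  (l.zip r.1).foldl (fun a p => Fm.or a (litF (name (Sum.inl p.1)) (!p.2)))
    (litF (name (Sum.inr l)) r.2)

/-- All consistency constraints. -/
def constr (ρ : List (List Bool × Bool)) (ls : List (List Var)) : List (Fm Var) :=
  ls.flatMap (fun l => (ls.flatMap fun l' => if l.length = l'.length then [c1 l l'] else []) ++
    ρ.flatMap (fun r => if l.length = r.1.length then [c2 l r] else []))

/-- The oracle atoms of a formula. -/
def orcs (ts : List (Tok RAtom)) : List (List Var) :=
  ts.flatMap (fun t => Sum.elim (fun r => Sum.elim (fun _ => []) (fun l => [l]) r) (fun _ => []) t)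

theorem mem_orcs {ts : List (Tok RAtom)} {l : List Var} :
    l ∈ orcs ts ↔ (Sum.inl (Sum.inr l) : Tok RAtom) ∈ ts := by
  constructor
  · intro h
    obtain ⟨t, ht, h⟩ := List.mem_flatMap.1 h
    rcases t with (s | l') | o
    · simp at h
    · simp only [Sum.elim_inl, Sum.elim_inr, List.mem_singleton] at h
      subst h
      exact ht
    · simp at h
  · intro h
    exact List.mem_flatMap.2 ⟨_, h, by simp⟩

/-- The ordinary formula expressing that `φ` is a tautology relative to all oracles which agree
with the table `ρ`. -/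
def hat (ρ : List (List Bool × Bool)) (φ : Fm RAtom) : Fm Var :=
  (constr ρ (orcs φ.rpn)).foldl (fun a c => Fm.or a (Fm.neg c)) (φ.map name)

/-- The oracle agrees with the table. -/
def Ext (X : Orc) (ρ : List (List Bool × Bool)) : Prop := ∀ r ∈ ρ, X r.1 = r.2

theorem zip_map_eq {l l' : List Var} {v : Var → Bool} (hl : l.length = l'.length) :
    (∀ p ∈ l.zip l', v p.1 = v p.2) ↔ l.map v = l'.map v := by
  induction l generalizing l' with
  | nil => cases l' <;> simp_all
  | cons a l ih =>
    cases l' with
    | nil => simp at hl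
    | cons b l' =>
      simp only [List.length_cons, Nat.add_right_cancel_iff] at hl
      have := ih (l' := l') hl
      simp only [List.zip_cons_cons, List.mem_cons, forall_eq_or_imp, List.map_cons,
        List.cons.injEq]
      rw [← this]

theorem zip_map_eq' {l : List Var} {q : List Bool} {v : Var → Bool} (hl : l.length = q.length) :
    (∀ p ∈ l.zip q, v p.1 = p.2) ↔ l.map v = q := by
  induction l generalizing q with
  | nil => cases q <;> simp_all
  | cons a l ih =>
    cases q with
    | nil => simp at hl
    | cons b q =>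
      simp only [List.length_cons, Nat.add_right_cancel_iff] at hl
      have := ih (q := q) hl
      simp only [List.zip_cons_cons, List.mem_cons, forall_eq_or_imp, List.map_cons,
        List.cons.injEq]
      rw [← this]

theorem eval_c1 {u : Var → Bool} {l l' : List Var} (hl : l.length = l'.length) :
    (c1 l l').eval u = true ↔ (l.map (fun s => u (name (Sum.inl s))) =
      l'.map (fun s => u (name (Sum.inl s))) → u (name (Sum.inr l)) = u (name (Sum.inr l'))) := by
  rw [c1, eval_foldl_or, ← zip_map_eq hl]
  simp only [Fm.eval, eval_xorF, Bool.or_eq_true, List.any_eq_true]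
  constructor
  · rintro (h | ⟨p, hp, h⟩) h'
    · revert h
      cases u (name (Sum.inr l)) <;> cases u (name (Sum.inr l')) <;> simp
    · have := h' p hp
      simp [this] at h
  · intro h
    by_cases h' : ∀ p ∈ l.zip l', u (name (Sum.inl p.1)) = u (name (Sum.inl p.2))
    · left
      simp [h h']
    · right
      push Not at h'
      obtain ⟨p, hp, h'⟩ := h'
      exact ⟨p, hp, by
        revert h'
        cases u (name (Sum.inl p.1)) <;> cases u (name (Sum.inl p.2)) <;> simp⟩

theorem eval_c2 {u : Var → Bool} {l : List Var} {r : List Bool × Bool}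
    (hl : l.length = r.1.length) :
    (c2 l r).eval u = true ↔ (l.map (fun s => u (name (Sum.inl s))) = r.1 →
      u (name (Sum.inr l)) = r.2) := by
  rw [c2, eval_foldl_or, ← zip_map_eq' hl]
  simp only [eval_litF, Bool.or_eq_true, List.any_eq_true, decide_eq_true_eq]
  constructor
  · rintro (h | ⟨p, hp, h⟩) h'
    · exact h
    · have := h' p hp
      rw [this] at h
      simp at h
  · intro h
    by_cases h' : ∀ p ∈ l.zip r.1, u (name (Sum.inl p.1)) = p.2
    · exact Or.inl (h h')
    · right
      push Not at h'
      obtain ⟨p, hp, h'⟩ := h'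
      exact ⟨p, hp, by
        revert h'
        cases u (name (Sum.inl p.1)) <;> cases p.2 <;> simp⟩

theorem mem_constr {ρ : List (List Bool × Bool)} {ls : List (List Var)} {c : Fm Var} :
    c ∈ constr ρ ls ↔ (∃ l ∈ ls, ∃ l' ∈ ls, l.length = l'.length ∧ c = c1 l l') ∨
      (∃ l ∈ ls, ∃ r ∈ ρ, l.length = r.1.length ∧ c = c2 l r) := by
  simp only [constr, List.mem_flatMap, List.mem_append]
  constructor
  · rintro ⟨l, hl, ⟨l', hl', h⟩ | ⟨r, hr, h⟩⟩
    · split_ifs at h with h1
      · exact Or.inl ⟨l, hl, l', hl', h1, by simpa using h⟩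
      · simp at h
    · split_ifs at h with h1
      · exact Or.inr ⟨l, hl, r, hr, h1, by simpa using h⟩
      · simp at h
  · rintro (⟨l, hl, l', hl', h1, h⟩ | ⟨l, hl, r, hr, h1, h⟩)
    · exact ⟨l, hl, Or.inl ⟨l', hl', by simp [h1, h]⟩⟩
    · exact ⟨l, hl, Or.inr ⟨r, hr, by simp [h1, h]⟩⟩

open Classical in
theorem hat_sound {ρ : List (List Bool × Bool)} {φ : Fm RAtom}
    (h : ∀ u : Var → Bool, (hat ρ φ).eval u = true) {Y : Orc} (hY : Ext Y ρ) (v : Var → Bool) :
    φ.eval (rval Y v) = true := by
  set u : Var → Bool := fun t => if ht : ∃ r, name r = t then rval Y v ht.choose else false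
    with hu
  have hun : ∀ r, u (name r) = rval Y v r := by
    intro r
    have hr : ∃ r', name r' = name r := ⟨r, rfl⟩
    simp only [hu, dif_pos hr]
    rw [name_injective hr.choose_spec]
  have h1 := h u
  rw [hat, eval_foldl_or, eval_map] at h1
  simp only [hun, Bool.or_eq_true] at h1
  rcases h1 with h1 | h1
  · exact h1
  · exfalso
    obtain ⟨c, hc, h1⟩ := List.any_eq_true.1 h1
    simp only [Fm.eval, Bool.not_eq_true'] at h1
    rcases mem_constr.1 hc with ⟨l, hl, l', hl', hll, rfl⟩ | ⟨l, hl, r, hr, hll, rfl⟩
    · rw [← Bool.not_eq_true, eval_c1 hll] at h1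
      apply h1
      simp only [hun, rval]
      intro h2
      rw [show l.map v = l'.map v from h2]
    · rw [← Bool.not_eq_true, eval_c2 hll] at h1
      apply h1
      simp only [hun, rval]
      intro h2
      rw [show l.map v = r.1 from h2]
      exact hY r hr

open Classical in
theorem hat_complete {ρ : List (List Bool × Bool)} {φ : Fm RAtom} {X : Orc} (hX : Ext X ρ)
    (h : ∀ Y : Orc, Ext Y ρ → ∀ v : Var → Bool, φ.eval (rval Y v) = true) (u : Var → Bool) :
    (hat ρ φ).eval u = true := by
  rw [hat, eval_foldl_or, eval_map, Bool.or_eq_true]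
  by_cases hc : ∃ c ∈ constr ρ (orcs φ.rpn), c.eval u = false
  · right
    obtain ⟨c, hc, h1⟩ := hc
    exact List.any_eq_true.2 ⟨c, hc, by simp [Fm.eval, h1]⟩
  · left
    push Not at hc
    set v : Var → Bool := fun s => u (name (Sum.inl s)) with hv
    set Y : Orc := fun q => if hq : ∃ b, (q, b) ∈ ρ then hq.choose else
      if hl : ∃ l ∈ orcs φ.rpn, l.map v = q then u (name (Sum.inr hl.choose)) else false with hYd
    have hY : Ext Y ρ := by
      rintro ⟨q, b⟩ hr
      have hq : ∃ b, (q, b) ∈ ρ := ⟨b, hr⟩
      change Y q = b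
      simp only [hYd, dif_pos hq]
      have h1 := hX _ hq.choose_spec
      have h2 := hX _ hr
      simp only at h1 h2
      rw [← h1, h2]
    have key : ∀ l ∈ orcs φ.rpn, u (name (Sum.inr l)) = Y (l.map v) := by
      intro l hl
      by_cases hq : ∃ b, (l.map v, b) ∈ ρ
      · simp only [hYd, dif_pos hq]
        have hlen : l.length = (l.map v).length := by simp
        have h1 := hc _ (mem_constr.2 (Or.inr ⟨l, hl, _, hq.choose_spec, hlen, rfl⟩))
        have h2 : (c2 l (l.map v, hq.choose)).eval u = true := by simpa using h1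
        exact (eval_c2 (r := (l.map v, hq.choose)) hlen).1 h2 rfl
      · have hl' : ∃ l' ∈ orcs φ.rpn, l'.map v = l.map v := ⟨l, hl, rfl⟩
        simp only [hYd, dif_neg hq, dif_pos hl']
        have hlen : l.length = hl'.choose.length := by
          have := congrArg List.length hl'.choose_spec.2
          simpa using this.symm
        have h1 := hc _ (mem_constr.2 (Or.inl ⟨l, hl, _, hl'.choose_spec.1, hlen, rfl⟩))
        have h2 : (c1 l hl'.choose).eval u = true := by simpa using h1
        exact (eval_c1 hlen).1 h2 hl'.choose_spec.2.symm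
    rw [← h Y hY v]
    apply eval_congr
    rintro (s | l) ha
    · rfl
    · exact key l (mem_orcs.2 ha)

/-! ### The translation on token lists -/

/-- tokens of `xorF` -/
def xorT (s t : Var) : List (Tok Var) :=
  [Sum.inl s, Sum.inl t, Sum.inr none, Sum.inr (some false), Sum.inl s, Sum.inr none, Sum.inl t,
    Sum.inr (some false), Sum.inr (some true)]

theorem rpn_xorF (s t : Var) : (xorF s t).rpn = xorT s t := rfl

/-- tokens of `litF` -/
def litT (s : Var) (b : Bool) : List (Tok Var) := bif b then [Sum.inl s] else [Sum.inl s, Sum.inr none]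

theorem rpn_litF (s : Var) (b : Bool) : (litF s b).rpn = litT s b := by
  cases b <;> rfl

/-- tokens of `c1` -/
def c1T (l l' : List Var) : List (Tok Var) :=
  (xorT (name (Sum.inr l)) (name (Sum.inr l')) ++ [Sum.inr none]) ++
    (l.zip l').flatMap (fun p => xorT (name (Sum.inl p.1)) (name (Sum.inl p.2)) ++
      [Sum.inr (some true)])

theorem rpn_c1 (l l' : List Var) : (c1 l l').rpn = c1T l l' := by
  rw [c1, rpn_foldl_or]
  rfl

/-- tokens of `c2` -/
def c2T (l : List Var) (r : List Bool × Bool) : List (Tok Var) :=
  litT (name (Sum.inr l)) r.2 ++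
    (l.zip r.1).flatMap (fun p => litT (name (Sum.inl p.1)) (!p.2) ++ [Sum.inr (some true)])

theorem rpn_c2 (l : List Var) (r : List Bool × Bool) : (c2 l r).rpn = c2T l r := by
  rw [c2, rpn_foldl_or, rpn_litF]
  simp only [rpn_litF]
  rfl

/-- tokens of the constraints -/
def constrT (ρ : List (List Bool × Bool)) (ls : List (List Var)) : List (List (Tok Var)) :=
  ls.flatMap (fun l => (ls.flatMap fun l' => if l.length = l'.length then [c1T l l'] else []) ++
    ρ.flatMap (fun r => if l.length = r.1.length then [c2T l r] else []))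

theorem map_constr (ρ : List (List Bool × Bool)) (ls : List (List Var)) :
    (constr ρ ls).map Fm.rpn = constrT ρ ls := by
  simp only [constr, constrT, List.map_flatMap, List.map_append]
  congr 1
  funext l
  congr 1
  · congr 1
    funext l'
    split_ifs
    · simp [rpn_c1]
    · simp
  · congr 1
    funext r
    split_ifs
    · simp [rpn_c2]
    · simp

/-- The translation on token lists. -/
def hatT (ρ : List (List Bool × Bool)) (ts : List (Tok RAtom)) : List (Tok Var) :=
  ts.map (fun t => Sum.elim (fun r => (Sum.inl (name r) : Tok Var)) (fun o => Sum.inr o) t) ++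
    (constrT ρ (orcs ts)).flatMap (fun c => c ++ [Sum.inr none, Sum.inr (some true)])

theorem tmap_eq (t : Tok RAtom) :
    Sum.elim (fun r => (Sum.inl (name r) : Tok Var)) (fun o => Sum.inr o) t = tmap name t := by
  cases t <;> rfl

theorem rpn_hat (ρ : List (List Bool × Bool)) (φ : Fm RAtom) : (hat ρ φ).rpn = hatT ρ φ.rpn := by
  rw [hat, rpn_foldl_or, hatT, rpn_map, ← map_constr, List.flatMap_map]
  simp only [tmap_eq, Fm.rpn, List.append_assoc, List.cons_append, List.nil_append]

theorem constrT_mem {ρ : List (List Bool × Bool)} {ls : List (List Var)} {c : List (Tok Var)}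
    (h : c ∈ constrT ρ ls) : ∃ ψ : Fm Var, ψ.rpn = c := by
  rw [← map_constr] at h
  obtain ⟨ψ, _, h⟩ := List.mem_map.1 h
  exact ⟨ψ, h⟩

/-- If `hatT ρ ts` is readable then so is `ts`. -/
theorem parse_cs : ∀ (cs : List (List (Tok Var))) (_ : ∀ c ∈ cs, ∃ ψ : Fm Var, ψ.rpn = c)
    (st st' : List (Fm Var)),
    parse (cs.flatMap (fun c => c ++ [Sum.inr none, Sum.inr (some true)])) st = some st' →
      st'.length = st.length
  | [], _, st, st', h => by
    simp only [List.flatMap_nil, parse, Option.some.injEq] at h
    rw [h]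
  | c :: cs, hc, st, st', h => by
    obtain ⟨ψ, rfl⟩ := hc c (by simp)
    simp only [List.flatMap_cons, List.append_assoc] at h
    rw [parse_rpn] at h
    rcases st with _ | ⟨φ, st⟩
    · simp [parse, pstep] at h
    · have h' : parse (cs.flatMap (fun c => c ++ [Sum.inr none, Sum.inr (some true)]))
          (Fm.or φ (Fm.neg ψ) :: st) = some st' := by
        simpa [parse, pstep] using h
      have := parse_cs cs (fun c hc' => hc c (by simp [hc'])) _ _ h'
      simpa using this

theorem readable_of_hatT {ρ : List (List Bool × Bool)} {ts : List (Tok RAtom)} {ψ : Fm Var}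
    (h : ψ.rpn = hatT ρ ts) : ∃ φ : Fm RAtom, φ.rpn = ts := by
  have h1 := parse_rpn ψ [] []
  rw [List.append_nil, h, hatT, parse_append] at h1
  simp only [tmap_eq] at h1
  have h2 := parse_map name ts []
  rw [List.map_nil] at h2
  rw [h2] at h1
  cases hp : parse ts [] with
  | none => simp [hp, parse] at h1
  | some st =>
    rw [hp] at h1
    simp only [Option.map_some, Option.bind_some, parse] at h1
    have h3 := parse_cs _ (fun c hc => constrT_mem hc) _ _ h1
    simp only [List.length_cons, List.length_nil, List.length_map] at h3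
    match st, h3 with
    | [φ], _ =>
      refine ⟨φ, ?_⟩
      have := flat_parse ts [] [φ] hp
      simpa [flat] using this.symm

theorem code_injective [TEnc A] : Function.Injective (Fm.code : Fm A → List Bool) :=
  fun _ _ h => rpn_injective (TEnc.inj (T.enc_injective h))

/-- Truth relative to an oracle depends on finitely many values of the oracle. -/
theorem exists_table {φ : Fm RAtom} (X : Orc) : ∃ ρ : List (List Bool × Bool), Ext X ρ ∧
    ∀ Y : Orc, Ext Y ρ → ∀ v : Var → Bool, φ.eval (rval Y v) = φ.eval (rval X v) := by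
  obtain ⟨m, hm⟩ : ∃ m, ∀ l ∈ orcs φ.rpn, l.length ≤ m := by
    generalize orcs φ.rpn = ls
    induction ls with
    | nil => exact ⟨0, by simp⟩
    | cons a ls ih =>
      obtain ⟨m, hm⟩ := ih
      exact ⟨max a.length m, by
        intro l hl
        rcases List.mem_cons.1 hl with rfl | hl
        · simp
        · exact (hm l hl).trans (le_max_right _ _)⟩
  have hfin : Set.Finite {q : List Bool | q.length ≤ m} := List.finite_length_le Bool m
  refine ⟨hfin.toFinset.toList.map (fun q => (q, X q)), ?_, ?_⟩
  · intro r hr
    obtain ⟨q, _, rfl⟩ := List.mem_map.1 hr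
    rfl
  · intro Y hY v
    apply eval_congr
    rintro (s | l) ha
    · rfl
    · have h1 := hm l (mem_orcs.2 ha)
      have h2 : (l.map v, X (l.map v)) ∈ hfin.toFinset.toList.map (fun q => (q, X q)) := by
        refine List.mem_map.2 ⟨l.map v, ?_, rfl⟩
        simp [h1]
      exact hY _ h2

end Pool.Agent.H681R2.GA
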