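import Pool.Agent.H681R2.GA.Reflect

/-!
# Generic oracles
-/

namespace Pool.Agent.H681R2.GA

open Pool.Agent.NPC

/-- A property of oracles is local if its truth values are determined by finite tables. -/
def Local (P : Orc → Prop) : Prop :=
  ∀ X : Orc, ∃ ρ : List (List Bool × Bool), Ext X ρ ∧ ∀ Y, Ext Y ρ → (P Y ↔ P X)

theorem isOpen_ext (ρ : List (List Bool × Bool)) : IsOpen {Y : Orc | Ext Y ρ} := by
  induction ρ with
  | nil => simp [Ext]
  | cons r ρ ih =>
    have h : {Y : Orc | Ext Y (r :: ρ)} = (fun Y : Orc => Y r.1) ⁻¹' {r.2} ∩ {Y : Orc | Ext Y ρ} := by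
      ext Y
      simp [Ext]
    rw [h]
    exact ((isOpen_discrete _).preimage (continuous_apply _)).inter ih

theorem Local.isOpen {P : Orc → Prop} (h : Local P) : IsOpen {X | P X} := by
  rw [isOpen_iff_forall_mem_open]
  intro X hX
  obtain ⟨ρ, h1, h2⟩ := h X
  exact ⟨{Y | Ext Y ρ}, fun Y hY => (h2 Y hY).2 hX, isOpen_ext ρ, h1⟩

theorem Local.not {P : Orc → Prop} (h : Local P) : Local (fun X => ¬ P X) := by
  intro X
  obtain ⟨ρ, h1, h2⟩ := h X
  exact ⟨ρ, h1, fun Y hY => not_congr (h2 Y hY)⟩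

theorem Local.isClosed {P : Orc → Prop} (h : Local P) : IsClosed {X | P X} := by
  rw [← isOpen_compl_iff]
  exact h.not.isOpen

theorem Local.and {P Q : Orc → Prop} (h : Local P) (h' : Local Q) : Local (fun X => P X ∧ Q X) := by
  intro X
  obtain ⟨ρ, h1, h2⟩ := h X
  obtain ⟨ρ', h1', h2'⟩ := h' X
  refine ⟨ρ ++ ρ', ext_append.2 ⟨h1, h1'⟩, fun Y hY => ?_⟩
  rw [ext_append] at hY
  have e1 := h2 Y hY.1
  have e2 := h2' Y hY.2
  simp only [e1, e2]

theorem Local.iff {P Q : Orc → Prop} (h : Local P) (h' : Local Q) :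
    Local (fun X => (P X ↔ Q X)) := by
  intro X
  obtain ⟨ρ, h1, h2⟩ := h X
  obtain ⟨ρ', h1', h2'⟩ := h' X
  refine ⟨ρ ++ ρ', ext_append.2 ⟨h1, h1'⟩, fun Y hY => ?_⟩
  rw [ext_append] at hY
  have e1 := h2 Y hY.1
  have e2 := h2' Y hY.2
  simp only [e1, e2]

/-- A function of the oracle is local if its values are determined by finite tables. -/
def LocalF {α : Type} (F : Orc → α) : Prop :=
  ∀ X : Orc, ∃ ρ : List (List Bool × Bool), Ext X ρ ∧ ∀ Y, Ext Y ρ → F Y = F X

theorem LocalF.local {α : Type} {F : Orc → α} (h : LocalF F) (P : α → Prop) :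
    Local (fun X => P (F X)) := by
  intro X
  obtain ⟨ρ, h1, h2⟩ := h X
  exact ⟨ρ, h1, fun Y hY => by simp only [h2 Y hY]⟩

theorem LocalF.eq {α : Type} {F G : Orc → α} (h : LocalF F) (h' : LocalF G) :
    Local (fun X => F X = G X) := by
  intro X
  obtain ⟨ρ, h1, h2⟩ := h X
  obtain ⟨ρ', h1', h2'⟩ := h' X
  refine ⟨ρ ++ ρ', ext_append.2 ⟨h1, h1'⟩, fun Y hY => ?_⟩
  rw [ext_append] at hY
  have e1 := h2 Y hY.1
  have e2 := h2' Y hY.2
  simp only [e1, e2]

/-- Substituting a local value. -/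
theorem LocalF.bind {α β : Type} {F : Orc → α} {G : α → Orc → β} (h : LocalF F)
    (h' : ∀ a, LocalF (G a)) : LocalF (fun X => G (F X) X) := by
  intro X
  obtain ⟨ρ, h1, h2⟩ := h X
  obtain ⟨ρ', h1', h2'⟩ := h' (F X) X
  refine ⟨ρ ++ ρ', ext_append.2 ⟨h1, h1'⟩, fun Y hY => ?_⟩
  rw [ext_append] at hY
  have e1 := h2 Y hY.1
  have e2 := h2' Y hY.2
  simp only [e1, e2]

theorem localF_oRun (next : List Bool → List Bool) (p : Polynomial ℕ) (w : List Bool) :
    LocalF (fun X => oRun next p X w) := fun X =>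
  ⟨tr next w (ans next X w (p.eval w.length)), ext_tr, fun _ hY => oRun_congr hY⟩

theorem localF_EN (f : List Bool → List Bool) (u : List Bool) : LocalF (fun X => EN f X u) := by
  have h := localF_oRun (nextE f) Polynomial.X u
  simpa only [oRun_nextE] using h

theorem local_mem_TAUTrel (x : List Bool) : Local (fun X => x ∈ TAUTrel X) := by
  by_cases hx : ∃ φ : Fm RAtom, φ.code = x
  · obtain ⟨φ, rfl⟩ := hx
    intro X
    obtain ⟨ρ, h1, h2⟩ := exists_table (φ := φ) X
    refine ⟨ρ, h1, fun Y hY => ?_⟩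
    constructor
    · rintro ⟨φ', h3, h4⟩
      rw [code_injective h3] at h4
      exact ⟨φ, rfl, fun v => by rw [← h2 Y hY, h4]⟩
    · rintro ⟨φ', h3, h4⟩
      rw [code_injective h3] at h4
      exact ⟨φ, rfl, fun v => by rw [h2 Y hY, h4]⟩
  · intro X
    refine ⟨[], by simp [Ext], fun Y _ => ?_⟩
    constructor
    · rintro ⟨φ', h3, _⟩
      exact absurd ⟨φ', h3⟩ hx
    · rintro ⟨φ', h3, _⟩
      exact absurd ⟨φ', h3⟩ hx

theorem LocalF.mem_TAUTrel {F : Orc → List Bool} (h : LocalF F) :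
    Local (fun X => F X ∈ TAUTrel X) := by
  intro X
  obtain ⟨ρ, h1, h2⟩ := h X
  obtain ⟨ρ', h1', h2'⟩ := local_mem_TAUTrel (F X) X
  refine ⟨ρ ++ ρ', ext_append.2 ⟨h1, h1'⟩, fun Y hY => ?_⟩
  rw [ext_append] at hY
  have e1 := h2 Y hY.1
  have e2 := h2' Y hY.2
  simp only [e1, e2]

/-- Bounded existential quantification over strings. -/
theorem Local.exists_bounded {P : List Bool → Orc → Prop} (h : ∀ v, Local (P v)) (n : ℕ) :
    Local (fun X => ∃ v : List Bool, v.length ≤ n ∧ P v X) := by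
  have hfin : Set.Finite {q : List Bool | q.length ≤ n} := List.finite_length_le Bool n
  intro X
  choose ρ h1 h2 using fun v => h v X
  refine ⟨hfin.toFinset.toList.flatMap ρ, ?_, fun Y hY => ?_⟩
  · intro r hr
    obtain ⟨v, _, hr⟩ := List.mem_flatMap.1 hr
    exact h1 v r hr
  · apply exists_congr
    intro v
    constructor
    · rintro ⟨h3, h4⟩
      refine ⟨h3, (h2 v Y fun r hr => hY r (List.mem_flatMap.2 ⟨v, ?_, hr⟩)).1 h4⟩
      simpa using h3
    · rintro ⟨h3, h4⟩
      refine ⟨h3, (h2 v Y fun r hr => hY r (List.mem_flatMap.2 ⟨v, ?_, hr⟩)).2 h4⟩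
      simpa using h3

theorem exists_table_of_isOpen {U : Set Orc} (hU : IsOpen U) {X : Orc} (hX : X ∈ U) :
    ∃ σ : List (List Bool × Bool), Ext X σ ∧ ∀ Y, Ext Y σ → Y ∈ U := by
  obtain ⟨I, u, h1, h2⟩ := isOpen_pi_iff.1 hU X hX
  refine ⟨I.toList.map (fun q => (q, X q)), ?_, fun Y hY => h2 ?_⟩
  · intro r hr
    obtain ⟨q, _, rfl⟩ := List.mem_map.1 hr
    rfl
  · intro q hq
    have h3 := hY (q, X q) (List.mem_map.2 ⟨q, by simpa using hq, rfl⟩)
    simp only at h3
    rw [h3]
    exact (h1 q hq).2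

/-- A generic oracle satisfying a closed property satisfies it because of a finite table. -/
theorem generic {ι : Type} [Countable ι] (C : ι → Set Orc) (hC : ∀ i, IsClosed (C i)) :
    ∀ᶠ X in residual Orc, ∀ i, X ∈ C i →
      ∃ σ : List (List Bool × Bool), Ext X σ ∧ ∀ Y, Ext Y σ → Y ∈ C i := by
  rw [eventually_countable_forall]
  intro i
  have h1 : (frontier (C i))ᶜ ∈ residual Orc := by
    refine residual_of_dense_open isClosed_frontier.isOpen_compl ?_
    rw [← interior_eq_empty_iff_dense_compl]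
    exact interior_frontier (hC i)
  filter_upwards [h1] with X hX hX'
  have h2 : X ∈ interior (C i) := by
    by_contra h3
    exact hX ⟨subset_closure hX', h3⟩
  obtain ⟨σ, h3, h4⟩ := exists_table_of_isOpen isOpen_interior h2
  exact ⟨σ, h3, fun Y hY => interior_subset (h4 Y hY)⟩

instance : Countable {f : List Bool → List Bool // PolyTime f} :=
  PIso.countable_polyTime.to_subtype

instance : Countable (Polynomial ℕ) := by
  have h : Function.Injective (fun p : Polynomial ℕ => (List.range (p.natDegree + 1)).map p.coeff) := by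
    intro p q hpq
    have h1 := congrArg List.length hpq
    simp only [List.length_map, List.length_range, Nat.add_right_cancel_iff] at h1
    ext n
    by_cases hn : n ≤ p.natDegree
    · have h2 := congrArg (fun l => l.getD n 0) hpq
      simp only [← h1] at h2
      rw [List.getD_eq_getElem _ _ (by simpa [Nat.lt_succ_iff] using hn),
        List.getD_eq_getElem _ _ (by simpa [Nat.lt_succ_iff] using hn)] at h2
      simpa using h2
    · rw [Polynomial.coeff_eq_zero_of_natDegree_lt (by omega),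
        Polynomial.coeff_eq_zero_of_natDegree_lt (by omega)]
  exact h.countable

end Pool.Agent.H681R2.GA
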